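import Pool.Agent.H8.JS.Targets

set_option autoImplicit false

namespace Pool.Agent.H86.JS

open Pool.Agent.H69.Sp Pool.Agent.H69.Mt Pool.Agent.H16.TO Pool.Agent.H8.PL Pool.Agent.H8.JS

theorem pf_c4 : J_C4 := by
  intro r T U Hh Vv x i c y L w
  have key : ∀ (s p : ℕ), Ev (S5 (r := r) U Hh Vv x) A5 ⟨.bck, i, c, 0, p, s, y, s, w⟩
      ⟨.row false, i, c, 0, p + s, 0, y, 0, w⟩ (s + 1) := by
    intro s
    induction s with
    | zero =>
      intro p
      refine Ev.step (fun d => ?_) (fun h => by simp [A5] at h)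
      simp [S5]
    | succ s ih =>
      intro p
      have h1 : Ev (S5 (r := r) U Hh Vv x) A5 ⟨.bck, i, c, 0, p, s + 1, y, s + 1, w⟩
          ⟨.bck, i, c, 0, p + 1, s, y, s, w⟩ 1 := by
        refine Ev.step (fun d => ?_) (fun h => by simp [A5] at h)
        simp [S5]
      have h2 := h1.trans (ih (p + 1))
      have h3 : p + 1 + s = p + (s + 1) := by omega
      rw [h3] at h2
      exact h2.mono (by omega)
  have h := key L 0
  rwa [zero_add] at h

end Pool.Agent.H86.JS
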