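import Pool.Agent.H8.JS.Targets

set_option autoImplicit false

namespace Pool.Agent.H86.JS

open Pool.Agent.H69.Sp Pool.Agent.H69.Mt Pool.Agent.H16.TO Pool.Agent.H8.PL Pool.Agent.H8.JS

theorem pf_e1 (hNU : J_NU) (hHL : J_HL) (hEI : J_EI) (hET : J_ET) (hHB : J_HB) (hED : J_ED)
    (hEC : J_EC) : J_E1 := by
  intro M eq es x U hq hs hqU hsU hU
  constructor
  · rintro ⟨E, z, hz, n, hn, l, hl, rfl, hH, hI, hS, hA⟩
    obtain ⟨rfl, hv⟩ := (hHL x U n E hU hn).1 hH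
    have hR := (hEI M eq es x U E hU hv).1 hI
    obtain ⟨c, hc, hc2⟩ := hED M eq es x U l E hq hs hqU hsU hl hR hS
    refine ⟨l, hl, c, hc, hq ?_⟩
    have h1 := (hA (eq M.acc) (hqU _)).2 rfl
    exact (((hc2 l le_rfl).1 (eq M.acc) (hqU _)).1 h1).symm
  · rintro ⟨l, hl, c, hc, hacc⟩
    obtain ⟨E, hE⟩ := hEC M eq es x c
    obtain ⟨hv, hR⟩ := hE U
    have hlen : x.length < U := by
      have h1 := (hNU.2.2.1 x).1
      have h2 : x.length < 2 ^ x.length := Nat.lt_two_pow_self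
      omega
    refine ⟨E, 0, by omega, x.length, hlen, l, hl, rfl, (hHL x U _ E hU hlen).2 ⟨rfl, hv⟩, ?_,
      ?_, ?_⟩
    · refine (hEI M eq es x U E hU hv).2 ?_
      rw [← hc.1]
      exact hR 0
    · intro t ht htl
      refine ⟨t + 1, by omega, rfl, ?_⟩
      refine (hET M eq es U E t (c t) hq hs hqU hsU (by omega) (hHB M x l c hc t htl.le)
        (hR t)).2 ⟨c (t + 1), hc.2 t htl, hR (t + 1)⟩
    · rw [← hacc]
      exact (hR l).1

end Pool.Agent.H86.JS
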