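import Pool.Agent.H8.JS.Targets

set_option autoImplicit false

namespace Pool.Agent.H86.JS

open Pool.Agent.H69.Sp Pool.Agent.H69.Mt Pool.Agent.H16.TO Pool.Agent.H8.PL Pool.Agent.H8.JS

theorem pf_p1 (hNU : J_NU) (hP0 : J_P0) : J_P1 := by
  intro r T U Hh Vv x
  obtain ⟨h0, h1, h2, -, -⟩ := hNU
  have hpos : ∀ z : List Bool, 1 ≤ num z := fun z => Nat.one_le_two_pow.trans (h2 z).1
  have key : ∀ i, i ≤ x.length → Ev (S5 (r := r) U Hh Vv x) A5
      ⟨.rd, 0, 1, 0, 0, 0, 0, 0, fun _ => none⟩
      ⟨.rd, i, num (x.take i), 0, 0, 0, 0, 0, fun _ => none⟩ (7 * (num (x.take i) - 1)) := by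
    intro i
    induction i with
    | zero =>
      intro _
      rw [List.take_zero, h0]
      exact Ev.refl _
    | succ i ih =>
      intro hi
      have hi' : i < x.length := by omega
      have hb : x[i]? = some x[i] := List.getElem?_eq_getElem hi'
      have h3 : num (x.take (i + 1)) = 2 * num (x.take i) + (x[i]).toNat := by
        rw [List.take_add_one, hb]
        exact h1 _ _
      have h4 := (ih (by omega)).trans
        (hP0 r T U Hh Vv x i (num (x.take i)) x[i] (fun _ => none) hb)
      rw [← h3] at h4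
      refine h4.mono ?_
      have := hpos (x.take i)
      omega
  have hs : Ev (S5 (r := r) U Hh Vv x) A5 (i5 r T)
      ⟨.rd, 0, 1, 0, 0, 0, 0, 0, fun _ => none⟩ 1 := by
    refine Ev.step (fun d => ?_) (fun h => by simp [A5, i5] at h)
    simp [S5, i5]
  have h5 := hs.trans (key x.length le_rfl)
  rw [List.take_length] at h5
  refine h5.mono ?_
  have := hpos x
  omega

end Pool.Agent.H86.JS
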